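import Pool.Agent.QSN.StmtsB

/-!
# Squad QSN, row FLQ (helper18): from a quasi-isometric embedding to the data `FltQ`
-/

set_option autoImplicit false

namespace Pool.Agent.QSN.H18

open Matrix Finset Filter Topology Pool.Agent.QSX Pool.Agent.QSN

theorem fst_le {m : ℕ} {E : Type} [NormedAddCommGroup E] [InnerProductSpace ℝ E]
    (v : WithLp 2 (EuclideanSpace ℝ (Fin m) × E)) (i : Fin m) : |v.fst i| ≤ ‖v‖ := by
  have h1 : ‖v.fst i‖ ≤ ‖v.fst‖ := PiLp.norm_apply_le v.fst i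
  have h2 : ‖v.fst‖ ≤ ‖v‖ := WithLp.norm_fst_le _ v
  rw [Real.norm_eq_abs] at h1
  exact h1.trans h2

theorem ud_zero' (m : ℕ) : ud (0 : Fin m → ℝ) = 1 := by
  apply Units.ext
  show diagonal (fun i => Real.exp ((0 : Fin m → ℝ) i)) = 1
  have h : (fun i : Fin m => Real.exp ((0 : Fin m → ℝ) i)) = fun _ => 1 := by
    funext i
    simp
  rw [h, diagonal_one]

theorem ue_zero' (m : ℕ) : ue (0 : Matrix (Fin m) (Fin m) ℝ) = 1 := by
  apply Units.ext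
  rw [ue_val SU.zero, mexp_zero, Units.val_one]

theorem cgm (X : Dat) (hX : MS X) :
    (hX.Gam : Set (Matrix (Fin X.m) (Fin X.m) ℝ)ˣ).Countable := by
  let f : hX.ι × ℚ → (Matrix (Fin X.m) (Fin X.m) ℝ)ˣ := fun p => ue ((p.2 : ℝ) • hX.e p.1)
  have h1 : hX.Gam = (FreeGroup.lift f).range := by
    rw [FreeGroup.range_lift_eq_closure, MS.Gam]
    congr 1
    ext g
    constructor
    · rintro ⟨l, x, rfl⟩
      exact ⟨(l, x), rfl⟩
    · rintro ⟨⟨l, x⟩, rfl⟩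
      exact ⟨l, x, rfl⟩
  have h2 : Countable (hX.ι × ℚ) := inferInstance
  have h3 : Countable (FreeGroup (hX.ι × ℚ)) := inferInstance
  rw [h1, MonoidHom.coe_range]
  exact Set.countable_range _

theorem gnx (hB : BchStmt) (X : Dat) (hX : MS X) : ∀ n ∈ hX.Gam, ∃ x ∈ X.n, n = ue x := by
  intro n hn
  unfold MS.Gam at hn
  induction hn using Subgroup.closure_induction with
  | mem g hg =>
    obtain ⟨l, x, rfl⟩ := hg
    exact ⟨(x : ℝ) • hX.e l, Submodule.smul_mem _ _ (hX.e_mem l), rfl⟩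
  | one =>
    exact ⟨0, Submodule.zero_mem _, (ue_zero' _).symm⟩
  | mul g h _ _ ihg ihh =>
    obtain ⟨x, hx, rfl⟩ := ihg
    obtain ⟨y, hy, rfl⟩ := ihh
    exact hB ℝ X.m X.n X.su X.lie x hx y hy
  | inv g _ ih =>
    obtain ⟨x, hx, rfl⟩ := ih
    refine ⟨-x, Submodule.neg_mem _ hx, ?_⟩
    apply Units.ext
    rw [ue_inv_val (X.su x hx), ue_val (X.su x hx).neg]

/-- elements `ue x`, `x ∈ n`, are in the group of `X` -/
theorem mem_grp (X : Dat) (G : Subgroup (Matrix (Fin X.m) (Fin X.m) ℝ)ˣ) (hG : X.IsGrp G)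
    (n : (Matrix (Fin X.m) (Fin X.m) ℝ)ˣ) (h : ∃ x ∈ X.n, n = ue x) : n ∈ G := by
  obtain ⟨x, hx, rfl⟩ := h
  refine (hG _).2 ⟨((⟨x, hx⟩, 0) : X.n × X.b), ?_⟩
  show ue x = ue x * ud ((0 : X.b) : Fin X.m → ℝ)
  rw [Submodule.coe_zero, ud_zero', mul_one]

/-- `exp (c j) ≤ 2 ^ (j ^ 2)` for large `j` -/
theorem big_aux (c : ℝ) : ∀ᶠ j : ℕ in atTop, Real.exp (c * j) ≤ ((2 ^ (j ^ 2) : ℕ) : ℝ) := by
  have h1 : ∀ᶠ j : ℕ in atTop, c / Real.log 2 ≤ j :=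
    tendsto_natCast_atTop_atTop.eventually_ge_atTop _
  filter_upwards [h1] with j hj
  have hl : (0 : ℝ) < Real.log 2 := Real.log_pos (by norm_num)
  have h2 : c ≤ j * Real.log 2 := by
    rwa [div_le_iff₀ hl] at hj
  have h3 : ((2 ^ (j ^ 2) : ℕ) : ℝ) = Real.exp ((j : ℝ) * j * Real.log 2) := by
    push_cast
    rw [mul_comm ((j : ℝ) * j) (Real.log 2), Real.exp_mul, Real.exp_log (by norm_num)]
    have h4 : (j : ℝ) * j = ((j ^ 2 : ℕ) : ℝ) := by push_cast; ring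
    rw [h4, Real.rpow_natCast]
  rw [h3]
  apply Real.exp_le_exp.2
  have := mul_le_mul_of_nonneg_right h2 (Nat.cast_nonneg j : (0 : ℝ) ≤ (j : ℝ))
  calc c * j ≤ j * Real.log 2 * j := this
    _ = j * j * Real.log 2 := by ring

/-- uniform version of LMP with a sequence of bounds -/
theorem lmp_seq (ω : Ultrafilter ℕ) (V : Type) [NormedAddCommGroup V] [NormedSpace ℝ V] (m : ℕ)
    (Q : ℕ → V →ₗ[ℝ] (Fin m → ℝ)) (K : ℝ) (hK : 0 ≤ K) (hQ : ∀ s a i, |Q s a i| ≤ K * ‖a‖)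
    (P : V →ₗ[ℝ] (Fin m → ℝ))
    (hP : ∀ ε > (0 : ℝ), ∀ᶠ s in (ω : Filter ℕ), ∀ a : V, ‖a‖ ≤ 1 → ∀ i, |Q s a i - P a i| ≤ ε) :
    ∃ e : ℕ → ℝ, (∀ s, 0 ≤ e s) ∧ Tendsto e (ω : Filter ℕ) (𝓝 0) ∧
      ∀ s (a : V), ‖a‖ ≤ 1 → ∀ i, |Q s a i - P a i| ≤ e s := by
  classical
  let A : ℕ → Set ℝ := fun s => {e : ℝ | 0 ≤ e ∧ ∀ a : V, ‖a‖ ≤ 1 → ∀ i, |Q s a i - P a i| ≤ e}
  obtain ⟨s0, hs0⟩ := (hP 1 one_pos).exists
  have hPb : ∀ a : V, ‖a‖ ≤ 1 → ∀ i, |P a i| ≤ K + 1 := by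
    intro a ha i
    have h1 := hs0 a ha i
    have h2 := hQ s0 a i
    have h3 : K * ‖a‖ ≤ K := by nlinarith [norm_nonneg a]
    have h4 : P a i = Q s0 a i - (Q s0 a i - P a i) := by ring
    rw [h4]
    refine (abs_sub _ _).trans ?_
    linarith
  have hA : ∀ s, (A s).Nonempty := by
    intro s
    refine ⟨K + (K + 1), by positivity, ?_⟩
    intro a ha i
    have h2 := hQ s a i
    have h3 : K * ‖a‖ ≤ K := by nlinarith [norm_nonneg a]
    refine (abs_sub _ _).trans ?_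
    have := hPb a ha i
    linarith
  have hbd : ∀ s, BddBelow (A s) := fun s => ⟨0, fun e he => he.1⟩
  refine ⟨fun s => sInf (A s), ?_, ?_, ?_⟩
  · intro s
    exact le_csInf (hA s) fun e he => he.1
  · rw [Metric.tendsto_nhds]
    intro ε hε
    filter_upwards [hP (ε / 2) (by positivity)] with s hs
    have h1 : sInf (A s) ≤ ε / 2 := csInf_le (hbd s) ⟨by positivity, hs⟩
    have h2 : 0 ≤ sInf (A s) := le_csInf (hA s) fun e he => he.1
    rw [Real.dist_eq, sub_zero, abs_of_nonneg h2]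
    linarith
  · intro s a ha i
    exact le_csInf (hA s) fun e he => he.2 a ha i

/-- **FLQ** -/
theorem flq (hGRP : GrpStmt) (hMDX : MdxStmt) (hFSV : FsvStmt) (hMEA : MeaStmt) (hUTS : UtsStmt)
    (hFCM : FcmStmt) (hFEX : FexStmt) (hSQN : SqnStmt) (hDFQ : DfqStmt) (hWDS : WdsStmt)
    (hBCH : BchStmt) (hLMP : LmpStmt) (hHVB : HvbStmt) (hDFN : DfnStmt) (hLEN : LenStmt)
    (hLUD : LudStmt) : FlqStmt := by
  intro X Y hX H E _ _ f hf
  obtain ⟨⟨G, hG⟩, -⟩ := hGRP X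
  obtain ⟨Mn, hMn⟩ := hMDX hFSV hMEA hUTS hFCM hFEX X G hG
  obtain ⟨pt, d, hpt, hh, hA, hℓ, hNn⟩ := hDFQ X Y hX E f hf G hG
  obtain ⟨hw1, hw2, hw3, hw4, hw5, hw6⟩ := hWDS X hX H
  have hmG := mem_grp X G hG
  have hgpn : ∀ M m, ∃ x ∈ X.n, H.gp M m = ue x := by
    intro M m
    obtain ⟨x, hx, h⟩ := hw4 M m 0 (Submodule.zero_mem _)
    rw [ue_zero', mul_one] at h
    exact ⟨x, hx, h⟩
  -- the words in `G`
  let w : Wds G H.D (Fin H.D × Fin 5) :=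
    { U := fun M m => ⟨H.gp M m, hmG _ (hgpn M m)⟩
      W := fun i M m m' => ⟨H.wd i M m m', hmG _ (hw3 i M m m')⟩
      U0 := fun M => Subtype.ext (hw1 M)
      shift := fun i M m m' m0 => Subtype.ext (hw2 i M m m' m0) }
  have hwU : ∀ M m, ((w.U M m : G) : UX X) = H.gp M m := fun M m => rfl
  have hwW : ∀ i M m m', ((w.W i M m m' : G) : UX X) = H.wd i M m m' := fun i M m m' => rfl
  -- the countable set
  let Γ : Set G := {g : G | (g : UX X) ∈ hX.Gam}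
  have hΓc : Γ.Countable := (cgm X hX).preimage Subtype.val_injective
  have hΓN : Γ ⊆ d.Nn := by
    intro g hg
    rw [hNn]
    exact gnx hBCH X hX _ hg
  have h1N : (1 : G) ∈ d.Nn := by
    rw [hNn]
    exact ⟨0, Submodule.zero_mem _, by rw [ue_zero']; rfl⟩
  have hUN : ∀ M m, ∀ γ ∈ d.Nn, w.U M m * γ ∈ d.Nn := by
    intro M m γ hγ
    rw [hNn] at hγ ⊢
    obtain ⟨y, hy, hγy⟩ := hγ
    obtain ⟨x, hx, h⟩ := hw4 M m y hy
    refine ⟨x, hx, ?_⟩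
    rw [Subgroup.coe_mul, hγy, hwU, h]
  have hWN : ∀ i M m m', w.W i M m m' ∈ d.Nn := by
    intro i M m m'
    rw [hNn]
    exact hw3 i M m m'
  have hWK : ∃ K0 : ℝ, ∀ i (M : ℕ) m m', 0 < M → (∀ k, |m k| ≤ ((HH H.D * M : ℕ) : ℤ)) →
      (∀ k, |m' k| ≤ ((HH H.D * M : ℕ) : ℤ)) → d.ℓ (w.W i M m m') ≤ K0 := by
    obtain ⟨K0, h⟩ := hw5
    refine ⟨K0, fun i M m m' hM hm hm' => ?_⟩
    rw [hℓ]
    exact h i M m m' hM hm hm'
  have hUK : ∀ γ ∈ d.Nn, ∃ K0 : ℝ, ∀ (M : ℕ) m, 0 < M →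
      (∀ k, |m k| ≤ ((HH H.D * M : ℕ) : ℤ)) → d.ℓ (w.U M m * γ) ≤ K0 := by
    intro γ _
    obtain ⟨K0, h⟩ := hw6 (γ : UX X)
    refine ⟨K0, fun M m hM hm => ?_⟩
    rw [hℓ]
    exact h M m hM hm
  obtain ⟨K', j, x, Q, ε, a, Gd, hK', hj, hj1, hQ, hε0, hεt, hGd, hΓe, hT⟩ :=
    hSQN G Mn hMn (WithLp 2 (EuclideanSpace ℝ (Fin Y.m) × E)) X.b d H.D (Fin H.D × Fin 5) w Γ
      hΓc hΓN h1N hUN hWN hWK hUK (fun j => 2 ^ (j ^ 2)) (fun j => by positivity)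
  obtain ⟨L, C, hL, hC, hLC⟩ := hf
  obtain ⟨K0, -, hhv⟩ := hHVB Y E
  choose df hdf1 hdf2 using hDFN Y
  let S : Scale := ⟨hyperfilter ℕ, fun s => (j s : ℝ),
    (tendsto_natCast_atTop_atTop.comp hj).mono_left Nat.hyperfilter_le_atTop⟩
  have hSR : ∀ s, S.R s = (j s : ℝ) := fun s => rfl
  have hω : ∀ p : ℕ → Prop, (∀ᶠ s in atTop, p s) → ∀ᶠ s in (S.ω : Filter ℕ), p s :=
    fun p hp => Nat.hyperfilter_le_atTop hp
  have hone : ∀ s, (1 : ℝ) ≤ S.R s := fun s => by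
    rw [hSR]
    exact_mod_cast hj1 s
  let Q' : ℕ → X.b →ₗ[ℝ] (Fin Y.m → ℝ) := fun s =>
    { toFun := fun a i => (Q s a).fst i
      map_add' := by
        intro a b
        funext i
        rw [map_add]
        rfl
      map_smul' := by
        intro c a
        funext i
        rw [map_smul]
        rfl }
  have hQ' : ∀ s (a : X.b) i, Q' s a i = (Q s a).fst i := fun s a i => rfl
  have hQb : ∀ s (a : X.b) i, |Q' s a i| ≤ K' * ‖a‖ := fun s a i => by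
    rw [hQ']
    exact (fst_le _ i).trans (hQ s a)
  obtain ⟨P, hP⟩ := hLMP (hyperfilter ℕ) X.b Y.m Q' K' hQb
  obtain ⟨ε', hε'0, hε't, hε'⟩ := lmp_seq (hyperfilter ℕ) X.b Y.m Q' K' hK' hQb P hP
  -- the images
  let im : (n : UX X) → n ∈ G → ℕ → X.b → Y.Pt × E :=
    fun n hn s a => f (pt (x s * ⟨n, hn⟩ * d.A ((j s : ℝ) • a)))
  let F : UX X → ℕ → X.b → Y.Pt := fun n s a =>
    haveI := Classical.dec (n ∈ G)
    if hn : n ∈ G then df (f (pt (x s))).1 (im n hn s a).1 else (f (pt 1)).1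
  have hF : ∀ n (hn : n ∈ G) s a, F n s a = df (f (pt (x s))).1 (im n hn s a).1 := by
    intro n hn s a
    exact dif_pos hn
  have hFF : ∀ n (hn : n ∈ G) n' (hn' : n' ∈ G) s a a',
      len ((Y.mat (F n s a))⁻¹ * Y.mat (F n' s a')) = Y.dist (im n hn s a).1 (im n' hn' s a').1 := by
    intro n hn n' hn' s a a'
    rw [hF n hn, hF n' hn', ← hdf1, ← hdf1]
    unfold Dat.dist
    congr 1
    group
  have hXd : ∀ n (hn : n ∈ G) n' (hn' : n' ∈ G) s (a a' : X.b),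
      X.dist (pt (x s * ⟨n, hn⟩ * d.A ((j s : ℝ) • a))) (pt (x s * ⟨n', hn'⟩ * d.A ((j s : ℝ) • a')))
        = len ((ud (S.R s • (a : Fin X.m → ℝ)))⁻¹ * (n⁻¹ * n') * ud (S.R s • (a' : Fin X.m → ℝ))) := by
    intro n hn n' hn' s a a'
    unfold Dat.dist
    rw [← hpt, ← hpt]
    have h1 : ∀ a : X.b, ((d.A ((j s : ℝ) • a) : G) : UX X) =
        ud (S.R s • (a : Fin X.m → ℝ)) := fun a => by
      rw [hA]
      rfl
    rw [← h1 a, ← h1 a']
    congr 1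
    simp only [Subgroup.coe_mul]
    group
  have hD0 : ∀ p q : Y.Pt, 0 ≤ Y.dist p q := fun p q => (hLEN Y.m _ 1).1
  have hDp : ∀ p q : Y.Pt × E, Y.dist p.1 q.1 ≤ pdist Y E p q := by
    intro p q
    unfold pdist
    apply Real.le_sqrt_of_sq_le
    nlinarith [sq_nonneg ‖p.2 - q.2‖]
  have hpD : ∀ p q : Y.Pt × E, pdist Y E p q ≤ Y.dist p.1 q.1 + ‖p.2 - q.2‖ := by
    intro p q
    unfold pdist
    rw [Real.sqrt_le_left (by have := hD0 p.1 q.1; positivity)]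
    nlinarith [mul_nonneg (hD0 p.1 q.1) (norm_nonneg (p.2 - q.2))]
  have hup : ∀ n (hn : n ∈ G) n' (hn' : n' ∈ G) s (a a' : X.b),
      len ((Y.mat (F n s a))⁻¹ * Y.mat (F n' s a')) ≤
      L * len ((ud (S.R s • (a : Fin X.m → ℝ)))⁻¹ * (n⁻¹ * n') * ud (S.R s • (a' : Fin X.m → ℝ)))
        + C := by
    intro n hn n' hn' s a a'
    rw [hFF n hn n' hn', ← hXd n hn n' hn']
    exact (hDp _ _).trans (hLC _ _).2
  -- the good sets
  let Gs : ℕ → Set (UX X) := fun s => {n | ∃ hn : n ∈ G, (⟨n, hn⟩ : G) ∈ Gd s}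
  have hGs : ∀ s n, n ∈ Gs s ↔ ∃ hn : n ∈ G, (⟨n, hn⟩ : G) ∈ Gd s := fun s n => Iff.rfl
  have hGsW : ∀ s (g : G), (g : UX X) ∉ Gs s ↔ g ∉ Gd s := by
    intro s g
    rw [hGs]
    constructor
    · intro h h'
      exact h ⟨g.2, h'⟩
    · rintro h ⟨hn, h'⟩
      exact h h'
  have hmain : ∀ n s (hn : n ∈ G), (⟨n, hn⟩ : G) ∈ Gd s → ∀ b : X.b, ‖b‖ ≤ 1 →
      ‖hv Y E (im n hn s b) - hv Y E (f (pt (x s))) - (j s : ℝ) • Q s b‖ ≤ ε s * j s := by
    intro n s hn h b hb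
    have h1 := ((hGd s _).1 h).2 b hb
    rw [hh, hh] at h1
    exact h1
  let δ : ℕ → ℝ := fun s => 2 * (ε s + ε' s)
  have hδ : ∀ s, δ s = 2 * (ε s + ε' s) := fun s => rfl
  have hεω : Tendsto ε (S.ω : Filter ℕ) (𝓝 0) := hεt.mono_left Nat.hyperfilter_le_atTop
  have hδt : Tendsto δ (S.ω : Filter ℕ) (𝓝 0) := by
    have h1 := (hεω.add hε't).const_mul 2
    simpa using h1
  have haff : ∀ s, ∀ n ∈ Gs s, ∀ a : X.b, ‖a‖ ≤ 1 → ∀ i,
      |((F n s a).2 : Fin Y.m → ℝ) i - S.R s * P a i| ≤ δ s * S.R s := by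
    rintro s n ⟨hnG, hn⟩ a ha i
    have h3 := hmain n s hnG hn a ha
    have h4 := (fst_le _ i).trans h3
    have h5 : (hv Y E (im n hnG s a) - hv Y E (f (pt (x s))) -
        (j s : ℝ) • Q s a).fst i = ((F n s a).2 : Fin Y.m → ℝ) i - (j s : ℝ) * Q' s a i := by
      rw [hF n hnG, hdf2]
      rfl
    rw [h5] at h4
    have h6 := hε' s a ha i
    have h7 : ((F n s a).2 : Fin Y.m → ℝ) i - S.R s * P a i =
        (((F n s a).2 : Fin Y.m → ℝ) i - (j s : ℝ) * Q' s a i) +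
        (j s : ℝ) * (Q' s a i - P a i) := by
      rw [hSR]
      ring
    rw [h7]
    refine (abs_add_le _ _).trans ?_
    rw [abs_mul, hSR, abs_of_nonneg (Nat.cast_nonneg (j s) : (0 : ℝ) ≤ (j s : ℝ)), hδ]
    have h8 := mul_le_mul_of_nonneg_left h6 (Nat.cast_nonneg (j s) : (0 : ℝ) ≤ (j s : ℝ))
    have h9 : 0 ≤ (ε s + ε' s) * (j s : ℝ) :=
      mul_nonneg (add_nonneg (hε0 s) (hε'0 s)) (Nat.cast_nonneg _)
    nlinarith
  -- `1` is good eventually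
  have hgam : ∀ n ∈ hX.Gam, ∀ᶠ s in (S.ω : Filter ℕ), n ∈ Gs s := by
    intro n hn
    have hnG : n ∈ G := hmG n (gnx hBCH X hX n hn)
    filter_upwards [hω _ (hΓe ⟨n, hnG⟩ hn)] with s hs
    exact ⟨hnG, hs⟩
  have hPb1 : ∀ a : X.b, ‖a‖ ≤ 1 → P a ∈ Y.b := by
    intro a ha
    have hcl : IsClosed (Y.b : Set (Fin Y.m → ℝ)) := Submodule.closed_of_finiteDimensional _
    change P a ∈ (Y.b : Set (Fin Y.m → ℝ))
    rw [← hcl.closure_eq, Metric.mem_closure_iff]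
    intro r hr
    have h0 : ∀ᶠ s in (S.ω : Filter ℕ), δ s < r := hδt.eventually_lt_const hr
    obtain ⟨s, hs, hs'⟩ := ((hgam 1 (Subgroup.one_mem _)).and h0).exists
    have hs1 := haff s 1 hs a ha
    refine ⟨(S.R s)⁻¹ • ((F 1 s a).2 : Fin Y.m → ℝ), Y.b.smul_mem _ (F 1 s a).2.2, ?_⟩
    have hR : 0 < S.R s := lt_of_lt_of_le one_pos (hone s)
    refine lt_of_le_of_lt ?_ hs'
    have hδ0 : 0 ≤ δ s := by
      rw [hδ]
      have := hε0 s
      have := hε'0 s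
      positivity
    rw [dist_comm, dist_pi_le_iff hδ0]
    intro i
    rw [Real.dist_eq, Pi.smul_apply, smul_eq_mul]
    have h2 : (S.R s)⁻¹ * ((F 1 s a).2 : Fin Y.m → ℝ) i - P a i =
        (S.R s)⁻¹ * (((F 1 s a).2 : Fin Y.m → ℝ) i - S.R s * P a i) := by
      field_simp
    rw [h2, abs_mul, abs_of_pos (inv_pos.2 hR)]
    calc (S.R s)⁻¹ * |((F 1 s a).2 : Fin Y.m → ℝ) i - S.R s * P a i|
        ≤ (S.R s)⁻¹ * (δ s * S.R s) := mul_le_mul_of_nonneg_left (hs1 i) (inv_pos.2 hR).le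
      _ = δ s := by field_simp
  have hPb : ∀ a, P a ∈ Y.b := by
    intro a
    have ht : (0 : ℝ) < 1 + ‖a‖ := by positivity
    have h1 : ‖(1 + ‖a‖)⁻¹ • a‖ ≤ 1 := by
      rw [norm_smul, norm_inv, Real.norm_of_nonneg ht.le, inv_mul_le_one₀ ht]
      linarith
    have h2 := Y.b.smul_mem (1 + ‖a‖) (hPb1 _ h1)
    rw [map_smul, smul_smul, mul_inv_cancel₀ ht.ne', one_smul] at h2
    exact h2
  let B : Bas X Y hX H :=
    { S := S
      one_le := hone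
      P := P
      Pb := hPb
      Gd := Gs
      gdn := by
        rintro s n ⟨hnG, hn⟩
        have h1 := ((hGd s _).1 hn).1
        rw [hNn] at h1
        exact h1
      gam := hgam
      M := fun s => 2 ^ ((j s) ^ 2)
      pow := fun s => ⟨(j s) ^ 2, rfl⟩
      big := fun c => hω _ (hj.eventually (big_aux c))
      a := a
      ε := ε
      ε0 := hεω
      half := hT.half
      pair := by
        intro s
        refine le_trans (le_of_eq ?_) (hT.pair s)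
        congr 2
        ext q
        simp only [Set.mem_setOf_eq, ← hwW, hGsW]
      star := by
        intro s
        refine le_trans (le_of_eq ?_) (hT.star s)
        congr 2
        ext q
        simp only [Set.mem_setOf_eq, ← hwW, hGsW] }
  refine ⟨{ toBas := B, F := F, L := L, C := C, one_le_L := hL, zero_le_C := hC, δ := δ,
            δ0 := hδt, lip := ?_, up := ?_, aff := haff, dn := ?_ }⟩
  · rintro s n ⟨hnG, -⟩ a a'
    refine (hup n hnG n hnG s a a').trans ?_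
    have h1 : len ((ud (S.R s • (a : Fin X.m → ℝ)))⁻¹ * (n⁻¹ * n) * ud (S.R s • (a' : Fin X.m → ℝ)))
        ≤ S.R s * ‖a - a'‖ := by
      have h2 : (ud (S.R s • (a : Fin X.m → ℝ)))⁻¹ * (n⁻¹ * n) * ud (S.R s • (a' : Fin X.m → ℝ)) =
          ud ((S.R s • (a' - a) : X.b) : Fin X.m → ℝ) := by
        have h3 : ∀ a : X.b, ud (S.R s • (a : Fin X.m → ℝ)) =
            ((d.A (S.R s • a) : G) : UX X) := fun a => by
          rw [hA]
          rfl
        rw [inv_mul_cancel, mul_one, inv_mul_eq_iff_eq_mul, h3, h3, ← hA, ← Subgroup.coe_mul,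
          ← d.add]
        congr 2
        rw [smul_sub]
        abel
      rw [h2]
      refine (hLUD _ _).trans ?_
      rw [← Submodule.coe_norm, norm_smul, Real.norm_of_nonneg (zero_le_one.trans (hone s)),
        norm_sub_rev]
    have := mul_le_mul_of_nonneg_left h1 (zero_le_one.trans hL)
    exact add_le_add this le_rfl
  · rintro s n ⟨hnG, -⟩ n' ⟨hnG', -⟩ a
    exact hup n hnG n' hnG' s a a
  · rintro s n ⟨hnG, hn⟩ n' ⟨hnG', hn'⟩ a ha
    have h3 := hmain n s hnG hn a ha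
    have h4 := hmain n' s hnG' hn' a ha
    have h5 : ‖hv Y E (im n hnG s a) - hv Y E (im n' hnG' s a)‖ ≤ δ s * S.R s := by
      have h6 : hv Y E (im n hnG s a) - hv Y E (im n' hnG' s a) =
          (hv Y E (im n hnG s a) - hv Y E (f (pt (x s))) - (j s : ℝ) • Q s a) -
          (hv Y E (im n' hnG' s a) - hv Y E (f (pt (x s))) - (j s : ℝ) • Q s a) := by abel
      rw [h6]
      refine (norm_sub_le _ _).trans ?_
      rw [hSR, hδ]
      have h7 := add_le_add h3 h4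
      refine h7.trans ?_
      have h9 : 0 ≤ ε' s * (j s : ℝ) := mul_nonneg (hε'0 s) (Nat.cast_nonneg _)
      nlinarith
    have h8 := ((hhv (im n hnG s a) (im n' hnG' s a)).2.1).trans h5
    change len ((ud (S.R s • (a : Fin X.m → ℝ)))⁻¹ * (n⁻¹ * n') * ud (S.R s • (a : Fin X.m → ℝ))) / L
      - C - δ s * S.R s ≤ len ((Y.mat (F n s a))⁻¹ * Y.mat (F n' s a))
    rw [hFF n hnG n' hnG', ← hXd n hnG n' hnG']
    have h9 := (hLC (pt (x s * ⟨n, hnG⟩ * d.A ((j s : ℝ) • a)))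
      (pt (x s * ⟨n', hnG'⟩ * d.A ((j s : ℝ) • a)))).1
    have h10 := hpD (im n hnG s a) (im n' hnG' s a)
    have h11 : f (pt (x s * ⟨n, hnG⟩ * d.A ((j s : ℝ) • a))) = im n hnG s a := rfl
    have h12 : f (pt (x s * ⟨n', hnG'⟩ * d.A ((j s : ℝ) • a))) = im n' hnG' s a := rfl
    rw [h11, h12] at h9
    linarith

end Pool.Agent.QSN.H18
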